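import Pool.Agent.H45.Lib.S8.Y125.XT.Pts
import Pool.Agent.H45.Lib.S8.H921R2.TatePole.Base

/-!
# The local identity: places above `p` and characters
-/

set_option autoImplicit false

open NumberField IsDedekindDomain H300.HW
open Pool.Agent.H921R2.TatePole

namespace Pool.Agent.Y125.XT

lemma hasSum_congr_fun {f g : ℕ → ℂ} {a : ℂ} (h : HasSum f a) (hfg : ∀ n, g n = f n) : HasSum g a := by
  rwa [show g = f from funext hfg]

lemma below_eq_of_mem (K : Type) [Field K] [NumberField K] {p : Nat.Primes}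
    (v : HeightOneSpectrum (𝓞 K)) (h : (((p : ℕ) : ℕ) : 𝓞 K) ∈ v.asIdeal) :
    below v = p := by
  have h1 := (nm_eq v).2.2
  by_contra hne
  have hcop : Nat.Coprime (below v : ℕ) (p : ℕ) :=
    (Nat.coprime_primes (below v).2 p.2).2 (fun h => hne (Subtype.ext h))
  have h2 := Nat.isCoprime_iff_coprime.2 hcop
  obtain ⟨a, b, hab⟩ := h2
  apply v.isPrime.ne_top
  rw [Ideal.eq_top_iff_one]
  have h3 : ((a : 𝓞 K) * ((below v : ℕ) : 𝓞 K) + (b : 𝓞 K) * ((p : ℕ) : 𝓞 K)) = 1 := by
    have := congrArg (Int.cast : ℤ → 𝓞 K) hab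
    push_cast at this
    exact this
  rw [← h3]
  exact v.asIdeal.add_mem (v.asIdeal.mul_mem_left _ h1) (v.asIdeal.mul_mem_left _ h)


lemma card_hom_field (p : ℕ) [Fact p.Prime] (A k : Type*) [Field A] [Finite A] [Field k] [Finite k]
    [CharP A p] [CharP k p] (d r : ℕ) (hA : Nat.card A = p ^ d) (hk : Nat.card k = p ^ r) :
    Nat.card (A →+* k) = if d ∣ r then d else 0 := by
  letI : Algebra (ZMod p) A := ZMod.algebra A p
  letI : Algebra (ZMod p) k := ZMod.algebra k p
  have h2 := (Fact.out : p.Prime).two_le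
  have hdA : Module.finrank (ZMod p) A = d :=
    Nat.pow_right_injective h2 (by
      show p ^ _ = p ^ _
      rw [FiniteField.pow_finrank_eq_natCard p A, hA])
  have hdk : Module.finrank (ZMod p) k = r :=
    Nat.pow_right_injective h2 (by
      show p ^ _ = p ^ _
      rw [FiniteField.pow_finrank_eq_natCard p k, hk])
  have e : (A →+* k) ≃ (A →ₐ[ZMod p] k) :=
    { toFun := fun φ => { φ with
        commutes' := fun x => RingHom.congr_fun
          (Subsingleton.elim (φ.comp (algebraMap (ZMod p) A)) (algebraMap (ZMod p) k)) x }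
      invFun := fun φ => φ.toRingHom
      left_inv := fun φ => rfl
      right_inv := fun φ => rfl }
  rw [Nat.card_congr e]
  by_cases h : d ∣ r
  · rw [if_pos h, FiniteField.natCard_algHom_of_finrank_dvd (by rw [hdA, hdk]; exact h), hdA]
  · rw [if_neg h]
    have : IsEmpty (A →ₐ[ZMod p] k) := by
      by_contra hne
      rw [not_isEmpty_iff, FiniteField.nonempty_algHom_iff_finrank_dvd, hdA, hdk] at hne
      exact h hne
    exact Nat.card_of_isEmpty

section
variable {K : Type} [Field K] [NumberField K]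

lemma mem_v_of_below {v : HeightOneSpectrum (𝓞 K)} {p : Nat.Primes} (h : below v = p) :
    ((p : ℕ) : 𝓞 K) ∈ v.asIdeal := h ▸ (nm_eq v).2.2

lemma card_hom_K (p : Nat.Primes) (k : Type) [Field k] [Finite k] [CharP k (p : ℕ)] (r : ℕ)
    (hk : Nat.card k = (p : ℕ) ^ r) : Nat.card (𝓞 K →+* k) =
      ∑ v : {v : HeightOneSpectrum (𝓞 K) // below v = p}, if deg v.1 ∣ r then deg v.1 else 0 := by
  classical
  have : Fact (p : ℕ).Prime := ⟨p.2⟩
  let G : (Σ v : {v : HeightOneSpectrum (𝓞 K) // below v = p}, (𝓞 K ⧸ v.1.asIdeal →+* k)) →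
      (𝓞 K →+* k) := fun x => x.2.comp (Ideal.Quotient.mk x.1.1.asIdeal)
  have hmax : ∀ v : {v : HeightOneSpectrum (𝓞 K) // below v = p}, v.1.asIdeal.IsMaximal :=
    fun v => v.1.isPrime.isMaximal v.1.ne_bot
  have hfin : ∀ v : {v : HeightOneSpectrum (𝓞 K) // below v = p}, Finite (𝓞 K ⧸ v.1.asIdeal) :=
    fun v => Ideal.finiteQuotientOfFreeOfNeBot v.1.asIdeal v.1.ne_bot
  have hker : ∀ x, RingHom.ker (G x) = x.1.1.asIdeal := by
    rintro ⟨v, g⟩
    letI : Field (𝓞 K ⧸ v.1.asIdeal) := @Ideal.Quotient.field _ _ v.1.asIdeal (hmax v)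
    have hg : Function.Injective g := g.injective
    ext x
    rw [RingHom.mem_ker]
    show g (Ideal.Quotient.mk v.1.asIdeal x) = 0 ↔ _
    rw [map_eq_zero_iff g hg, Ideal.Quotient.eq_zero_iff_mem]
  have hG : Function.Bijective G := by
    constructor
    · intro x y hxy
      have h1 : x.1.1.asIdeal = y.1.1.asIdeal := by rw [← hker x, ← hker y, hxy]
      obtain ⟨v, g⟩ := x
      obtain ⟨w, g'⟩ := y
      have h2 : v = w := Subtype.ext (HeightOneSpectrum.ext h1)
      subst h2
      have h3 : g = g' := Ideal.Quotient.ringHom_ext hxy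
      rw [h3]
    · intro φ
      have hne : RingHom.ker φ ≠ ⊥ := by
        intro h
        have h1 : ((p : ℕ) : 𝓞 K) ∈ RingHom.ker φ := by
          rw [RingHom.mem_ker, map_natCast, CharP.cast_eq_zero]
        rw [h, Ideal.mem_bot] at h1
        exact (Nat.cast_ne_zero.2 p.2.ne_zero) h1
      let v : HeightOneSpectrum (𝓞 K) := ⟨RingHom.ker φ, RingHom.ker_isPrime φ, hne⟩
      have hv : below v = p := by
        apply below_eq_of_mem K v
        show _ ∈ RingHom.ker φ
        rw [RingHom.mem_ker, map_natCast, CharP.cast_eq_zero]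
      refine ⟨⟨⟨v, hv⟩, Ideal.Quotient.lift (RingHom.ker φ) φ (fun a ha => ha)⟩, ?_⟩
      ext x
      rfl
  rw [← Nat.card_congr (Equiv.ofBijective G hG)]
  have hfh : ∀ v : {v : HeightOneSpectrum (𝓞 K) // below v = p}, Finite (𝓞 K ⧸ v.1.asIdeal →+* k) :=
    fun v => by
      have := hfin v
      exact DFunLike.finite _
  rw [Nat.card_sigma]
  refine Finset.sum_congr rfl fun v _ => ?_
  letI : Field (𝓞 K ⧸ v.1.asIdeal) := @Ideal.Quotient.field _ _ v.1.asIdeal (hmax v)
  have := hfin v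
  have hch : CharP (𝓞 K ⧸ v.1.asIdeal) (p : ℕ) := by
    have : ringChar (𝓞 K ⧸ v.1.asIdeal) = (p : ℕ) := by
      apply CharP.ringChar_of_prime_eq_zero p.2
      have := Ideal.Quotient.eq_zero_iff_mem.2 (mem_v_of_below v.2)
      simpa using this
    rw [← this]; infer_instance
  have hcard : Nat.card (𝓞 K ⧸ v.1.asIdeal) = (p : ℕ) ^ deg v.1 := by
    have h1 := (nm_eq v.1).1
    rw [v.2] at h1
    rw [← h1]
    unfold nm
    rw [Ideal.absNorm_apply, Submodule.cardQuot_apply]
  exact card_hom_field (p : ℕ) (𝓞 K ⧸ v.1.asIdeal) k (deg v.1) r hcard hk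

end

lemma hs_log (d : ℕ) (hd : 0 < d) {X : ℂ} (hX : ‖X‖ < 1) :
    HasSum (fun r : ℕ => (if d ∣ r then (d : ℂ) else 0) * (X ^ r / r)) (-Complex.log (1 - X ^ d)) := by
  have hXd : ‖X ^ d‖ < 1 := by
    rw [norm_pow]
    exact pow_lt_one₀ (norm_nonneg _) hX hd.ne'
  have hinj : Function.Injective (fun j : ℕ => d * j) := fun i j h => Nat.eq_of_mul_eq_mul_left hd h
  rw [← hinj.hasSum_iff]
  · refine hasSum_congr_fun (Complex.hasSum_taylorSeries_neg_log hXd) fun j => ?_
    show (if d ∣ d * j then (d : ℂ) else 0) * (X ^ (d * j) / ((d * j : ℕ) : ℂ)) = _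
    rw [if_pos (dvd_mul_right d j), pow_mul]
    have hd' : (d : ℂ) ≠ 0 := by exact_mod_cast hd.ne'
    push_cast
    rcases eq_or_ne (j : ℂ) 0 with hj | hj
    · rw [hj]; simp
    · field_simp
  · intro r hr
    rw [if_neg, zero_mul]
    rintro ⟨j, rfl⟩
    exact hr ⟨j, rfl⟩

section
variable (n : ℕ) [NeZero n] (L : Type) [Field L] [NumberField L] [IsCyclotomicExtension {n} ℚ L]
  (F : IntermediateField ℚ L)

/-- the value of the primitive character -/
noncomputable def pv (χ : DirichletCharacter ℂ n) (p : ℕ) : ℂ :=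
  χ.primitiveCharacter ((p : ℕ) : ZMod χ.conductor)

open Classical in
lemma local_log (p : Nat.Primes) {X : ℂ} (hX : ‖X‖ < 1) :
    ∑ v : {v : HeightOneSpectrum (𝓞 F) // below v = p}, -Complex.log (1 - X ^ deg v.1) =
      ∑ χ : YY n L F, -Complex.log (1 - pv n χ.1 p * X) := by
  have hχ : ∀ χ : YY n L F, ‖pv n χ.1 p * X‖ < 1 := by
    intro χ
    rw [norm_mul]
    have := DirichletCharacter.norm_le_one χ.1.primitiveCharacter ((p : ℕ) : ZMod _)
    calc ‖pv n χ.1 p‖ * ‖X‖ ≤ 1 * ‖X‖ := mul_le_mul_of_nonneg_right this (norm_nonneg _)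
      _ < 1 := by rwa [one_mul]
  have h1 : HasSum (fun r : ℕ => ∑ χ : YY n L F, (pv n χ.1 p * X) ^ r / r)
      (∑ χ : YY n L F, -Complex.log (1 - pv n χ.1 p * X)) :=
    hasSum_sum fun χ _ => Complex.hasSum_taylorSeries_neg_log (hχ χ)
  have h2 : HasSum (fun r : ℕ => ∑ v : {v : HeightOneSpectrum (𝓞 F) // below v = p},
      (if deg v.1 ∣ r then (deg v.1 : ℂ) else 0) * (X ^ r / r))
      (∑ v : {v : HeightOneSpectrum (𝓞 F) // below v = p}, -Complex.log (1 - X ^ deg v.1)) :=
    hasSum_sum fun v _ => hs_log _ (nm_eq v.1).2.1 hX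
  refine h2.unique (hasSum_congr_fun h1 fun r => ?_)
  rcases Nat.eq_zero_or_pos r with rfl | hr
  · simp
  · have : Fact (p : ℕ).Prime := ⟨p.2⟩
    have hk : Nat.card (GaloisField (p : ℕ) r) = (p : ℕ) ^ r := GaloisField.card _ _ hr.ne'
    have e1 := card_hom_K (K := F) p (GaloisField (p : ℕ) r) r hk
    obtain ⟨-, e2⟩ := s_points n L F (GaloisField (p : ℕ) r)
    rw [finsum_eq_sum_of_fintype, e1, hk] at e2
    rw [← Finset.sum_mul]
    have e3 : (∑ v : {v : HeightOneSpectrum (𝓞 F) // below v = p},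
        (if deg v.1 ∣ r then (deg v.1 : ℂ) else 0)) = ∑ χ : YY n L F, pv n χ.1 p ^ r := by
      have e4 : (∑ v : {v : HeightOneSpectrum (𝓞 F) // below v = p},
        (if deg v.1 ∣ r then (deg v.1 : ℂ) else 0)) =
        ((∑ v : {v : HeightOneSpectrum (𝓞 F) // below v = p},
          (if deg v.1 ∣ r then deg v.1 else 0) : ℕ) : ℂ) := by
        push_cast
        rfl
      rw [e4, e2]
      refine Finset.sum_congr rfl fun χ _ => ?_
      unfold pv
      rw [← map_pow]
      push_cast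
      rfl
    rw [e3, Finset.sum_mul]
    refine Finset.sum_congr rfl fun χ _ => ?_
    rw [mul_pow, mul_div_assoc]

open Classical in
lemma local_small (p : Nat.Primes) {X : ℂ} (hX : ‖X‖ < 1) :
    ∏ v : {v : HeightOneSpectrum (𝓞 F) // below v = p}, (1 - X ^ deg v.1) =
      ∏ χ : YY n L F, (1 - pv n χ.1 p * X) := by
  have h := local_log n L F p hX
  have hne : ∀ z : ℂ, ‖z‖ < 1 → 1 - z ≠ 0 := by
    intro z hz h
    have : z = 1 := by linear_combination -h
    rw [this] at hz
    simp at hz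
  have h2 : Complex.exp (∑ v : {v : HeightOneSpectrum (𝓞 F) // below v = p},
      Complex.log (1 - X ^ deg v.1)) = Complex.exp (∑ χ : YY n L F,
        Complex.log (1 - pv n χ.1 p * X)) := by
    congr 1
    rw [Finset.sum_neg_distrib, Finset.sum_neg_distrib] at h
    exact neg_injective h
  rw [Complex.exp_sum, Complex.exp_sum] at h2
  rw [Finset.prod_congr rfl (fun v _ => (Complex.exp_log (hne (X ^ deg v.1) (by
    rw [norm_pow]
    exact pow_lt_one₀ (norm_nonneg _) hX (nm_eq v.1).2.1.ne'))).symm), h2]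
  refine Finset.prod_congr rfl fun χ _ => Complex.exp_log (hne _ ?_)
  rw [norm_mul]
  have := DirichletCharacter.norm_le_one χ.1.primitiveCharacter ((p : ℕ) : ZMod _)
  calc ‖pv n χ.1 p‖ * ‖X‖ ≤ 1 * ‖X‖ := mul_le_mul_of_nonneg_right this (norm_nonneg _)
    _ < 1 := by rwa [one_mul]

open Classical in
lemma local_all (p : Nat.Primes) (Y : ℂ) :
    ∏ v : {v : HeightOneSpectrum (𝓞 F) // below v = p}, (1 - Y ^ deg v.1) =
      ∏ χ : YY n L F, (1 - pv n χ.1 p * Y) := by
  have h : (∏ v : {v : HeightOneSpectrum (𝓞 F) // below v = p}, (1 - Polynomial.X ^ deg v.1) :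
      Polynomial ℂ) = ∏ χ : YY n L F, (1 - Polynomial.C (pv n χ.1 p) * Polynomial.X) := by
    apply Polynomial.eq_of_infinite_eval_eq
    refine Set.Infinite.mono (s := Metric.ball (0 : ℂ) 1) ?_
      (infinite_of_mem_nhds (0 : ℂ) (Metric.ball_mem_nhds _ one_pos))
    intro Z hZ
    rw [mem_ball_zero_iff] at hZ
    show Polynomial.eval Z _ = Polynomial.eval Z _
    rw [Polynomial.eval_prod, Polynomial.eval_prod]
    simp only [Polynomial.eval_sub, Polynomial.eval_one, Polynomial.eval_mul, Polynomial.eval_C,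
      Polynomial.eval_X, Polynomial.eval_pow]
    exact local_small n L F p hZ
  have h2 := congrArg (Polynomial.eval Y) h
  rw [Polynomial.eval_prod, Polynomial.eval_prod] at h2
  simpa only [Polynomial.eval_sub, Polynomial.eval_one, Polynomial.eval_mul, Polynomial.eval_C,
      Polynomial.eval_X, Polynomial.eval_pow] using h2

end

end Pool.Agent.Y125.XT
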