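import Mathlib
import Pool.Agent.H45.Lib.S8.H300R2.HWPoints

/-!
# Points of the ring of integers of a subfield of a cyclotomic field over finite fields, also in the
characteristics which divide the level
-/

set_option autoImplicit false

open NumberField Polynomial IsCyclotomicExtension.Rat H300.HW

namespace Pool.Agent.Y125.XT

/-- Points of the ring of integers of a subfield of a cyclotomic field (as in
`Pool.Agent.Y702.S_POINTS`). -/
def S_POINTS : Prop := ∀ (n : ℕ) [NeZero n] (L : Type) [Field L] [NumberField L]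
  [IsCyclotomicExtension {n} ℚ L] (F : IntermediateField ℚ L) (k : Type) [Field k] [Finite k],
  Finite (𝓞 F →+* k) ∧ (Nat.card (𝓞 F →+* k) : ℂ) =
    ∑ᶠ χ : H300.HW.YY n L F, (χ : DirichletCharacter ℂ n).primitiveCharacter (Nat.card k : ZMod _)

lemma prim_pow_iff {Ω : Type*} [Field Ω] {z : Ω} {N : ℕ} (h : IsPrimitiveRoot z N) (hN : 0 < N)
    (i j : ℕ) : z ^ i = z ^ j ↔ ((i : ℕ) : ZMod N) = (j : ZMod N) := by
  have h0 : ∀ i : ℕ, z ^ i = z ^ (i % N) := by
    intro i
    conv_lhs => rw [← Nat.div_add_mod i N, pow_add, pow_mul, h.pow_eq_one, one_pow, one_mul]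
  rw [ZMod.natCast_eq_natCast_iff, Nat.ModEq]
  constructor
  · intro h1
    rw [h0 i, h0 j] at h1
    exact h.pow_inj (Nat.mod_lt _ hN) (Nat.mod_lt _ hN) h1
  · intro h1
    rw [h0 i, h0 j, h1]

section pts

variable (n : ℕ) [NeZero n] (L : Type*) [Field L] [NumberField L] [hL : IsCyclotomicExtension {n} ℚ L]
variable {p a n' : ℕ} [hp : Fact p.Prime] [hn'0 : NeZero n'] (hn : n = p ^ a * n') (hn' : ¬ p ∣ n')

include hn hn'

lemma prim_image' {Ω : Type*} [Field Ω] [CharP Ω p] (ψ : 𝓞 L →+* Ω) :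
    IsPrimitiveRoot (ψ (zz n L)) n' := by
  have : NeZero (n' : Ω) := ⟨by rwa [Ne, CharP.cast_eq_zero_iff Ω p]⟩
  rw [← isRoot_cyclotomic_prime_pow_mul_iff_of_charP (p := p) (k := a), ← hn]
  have h1 : (cyclotomic n (𝓞 L)).IsRoot (zz n L) := (zz_prim n L).isRoot_cyclotomic (NeZero.pos n)
  have h2 := h1.map (f := ψ)
  rwa [Polynomial.map_cyclotomic] at h2

omit hn' hp hn'0 in
lemma dvd' : n' ∣ n := hn ▸ dvd_mul_left _ _

omit hn' hp hn'0 in
/-- the restriction to the part of the level prime to `p` -/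
lemma umap_val (u : (ZMod n)ˣ) : ((ZMod.unitsMap (dvd' n hn) u : (ZMod n')ˣ) : ZMod n') =
    ((u.val.val : ℕ) : ZMod n') := by
  rw [ZMod.unitsMap_val, ZMod.natCast_val]

lemma smul_zz_iff {Ω : Type*} [Field Ω] [CharP Ω p] (ψ : 𝓞 L →+* Ω) (g g' : Gal(L/ℚ)) :
    ψ (g • zz n L) = ψ (g' • zz n L) ↔
      ZMod.unitsMap (dvd' n hn) (galEquivZMod n L g) = ZMod.unitsMap (dvd' n hn) (galEquivZMod n L g') := by
  rw [smul_zz, smul_zz, map_pow, map_pow, prim_pow_iff (prim_image' n L hn hn' ψ) (NeZero.pos n'),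
    Units.ext_iff, umap_val n hn, umap_val n hn]

/-- transitivity of the Galois group on the points of the cyclotomic ring -/
lemma trans' {Ω : Type*} [Field Ω] [CharP Ω p] (ψ₁ ψ₂ : 𝓞 L →+* Ω) :
    ∃ σ : Gal(L/ℚ), ψ₂ = ψ₁.comp (MulSemiringAction.toRingHom Gal(L/ℚ) (𝓞 L) σ) := by
  obtain ⟨i, hi, hco, hii⟩ := ((prim_image' n L hn hn' ψ₁).isPrimitiveRoot_iff).mp
    (prim_image' n L hn hn' ψ₂)
  obtain ⟨w, hw⟩ := ZMod.unitsMap_surjective (dvd' n hn) (ZMod.unitOfCoprime i hco)
  refine ⟨(galEquivZMod n L).symm w, ?_⟩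
  apply hom_ext n L
  simp only [RingHom.coe_comp, Function.comp_apply, MulSemiringAction.toRingHom_apply]
  rw [smul_zz, MulEquiv.apply_symm_apply, map_pow, ← hii,
    prim_pow_iff (prim_image' n L hn hn' ψ₁) (NeZero.pos n')]
  rw [← umap_val n hn, hw, ZMod.coe_unitOfCoprime]

omit hn' hp hn'0 in
/-- the inertia group -/
noncomputable def In : Subgroup Gal(L/ℚ) :=
  ((ZMod.unitsMap (dvd' n hn)).comp (galEquivZMod n L).toMonoidHom).ker

omit hn' hp hn'0 in
lemma mem_In (σ : Gal(L/ℚ)) : σ ∈ In n L hn ↔ ZMod.unitsMap (dvd' n hn) (galEquivZMod n L σ) = 1 :=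
  Iff.rfl

instance : (In n L hn).Normal := by
  unfold In
  infer_instance

lemma res_eq_iff' [IsGalois ℚ L] (F : IntermediateField ℚ L) {Ω : Type*} [Field Ω] [CharP Ω p]
    (ψ : 𝓞 L →+* Ω) (g g' : Gal(L/ℚ)) :
    res L F ψ g = res L F ψ g' ↔ g⁻¹ * g' ∈ In n L hn ⊔ F.fixingSubgroup := by
  constructor
  · intro h
    obtain ⟨σ, hσ, h1⟩ := fib n L F _ _ h
    simp only [RingHom.coe_comp, Function.comp_apply, MulSemiringAction.toRingHom_apply] at h1
    rw [smul_smul, smul_zz_iff n L hn hn'] at h1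
    have h2 : (g * σ)⁻¹ * g' ∈ In n L hn := by
      rw [mem_In, map_mul, map_mul, h1, map_inv, map_inv]
      simp
    have h3 : g⁻¹ * g' = σ * ((g * σ)⁻¹ * g') := by group
    rw [h3]
    exact mul_mem (Subgroup.mem_sup_right hσ) (Subgroup.mem_sup_left h2)
  · intro h
    obtain ⟨i, hi, σ, hσ, h1⟩ := Subgroup.mem_sup_of_normal_left.1 h
    have h2 : g' = g * i * σ := by
      rw [mul_assoc, h1]; group
    have h3 : ψ.comp (MulSemiringAction.toRingHom Gal(L/ℚ) (𝓞 L) (g * i)) =
        ψ.comp (MulSemiringAction.toRingHom Gal(L/ℚ) (𝓞 L) g) := by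
      apply hom_ext n L
      simp only [RingHom.coe_comp, Function.comp_apply, MulSemiringAction.toRingHom_apply]
      rw [smul_zz_iff n L hn hn', map_mul, map_mul, (mem_In n L hn i).1 hi, mul_one]
    ext x
    have h4 := DFunLike.congr_fun h3 (algebraMap (𝓞 F) (𝓞 L) x)
    simp only [RingHom.coe_comp, Function.comp_apply, MulSemiringAction.toRingHom_apply] at h4
    simp only [res, RingHom.coe_comp, Function.comp_apply, MulSemiringAction.toRingHom_apply]
    rw [h2, mul_smul _ σ, smul_of_mem L hσ, h4]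

lemma res_surj' (F : IntermediateField ℚ L) {Ω : Type*} [Field Ω] [IsAlgClosed Ω] [CharP Ω p]
    (ψ : 𝓞 L →+* Ω) : Function.Surjective (res L F ψ) := by
  intro φ
  obtain ⟨ψ', hψ'⟩ := exists_extend (A := 𝓞 F) (B := 𝓞 L)
    (FaithfulSMul.algebraMap_injective (𝓞 F) (𝓞 L)) φ
  obtain ⟨σ, hσ⟩ := trans' n L hn hn' ψ ψ'
  exact ⟨σ, by rw [res, ← hσ, hψ']⟩

/-- the number of geometric points -/
lemma card_points' [IsGalois ℚ L] (F : IntermediateField ℚ L) {Ω : Type*} [Field Ω] [IsAlgClosed Ω]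
    [CharP Ω p] : Nat.card (𝓞 F →+* Ω) = (In n L hn ⊔ F.fixingSubgroup).index := by
  obtain ⟨ψ⟩ := exists_point L (Ω := Ω)
  have e : (Gal(L/ℚ) ⧸ (In n L hn ⊔ F.fixingSubgroup)) ≃ (𝓞 F →+* Ω) := by
    refine Equiv.ofBijective (Quotient.lift (res L F ψ) ?_) ⟨?_, ?_⟩
    · intro a b hab
      rw [res_eq_iff' n L hn hn' F]
      exact QuotientGroup.leftRel_apply.mp hab
    · intro a b
      induction a using Quotient.inductionOn
      induction b using Quotient.inductionOn
      intro h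
      apply Quotient.sound
      apply QuotientGroup.leftRel_apply.mpr
      exact (res_eq_iff' n L hn hn' F ψ _ _).mp h
    · intro φ
      obtain ⟨g, hg⟩ := res_surj' n L hn hn' F ψ φ
      exact ⟨Quotient.mk _ g, hg⟩
  rw [← Nat.card_congr e, Subgroup.index]

/-- Frobenius acts on the geometric points through the Galois group -/
lemma frob_eq' {Ω : Type*} [Field Ω] [CharP Ω p] (q : ℕ) (hq : q.Coprime n') (σ : Gal(L/ℚ))
    (hσ : ZMod.unitsMap (dvd' n hn) (galEquivZMod n L σ) = ZMod.unitOfCoprime q hq)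
    (f : Ω →+* Ω) (hf : ∀ x, f x = x ^ q) (ψ : 𝓞 L →+* Ω) :
    f.comp ψ = ψ.comp (MulSemiringAction.toRingHom Gal(L/ℚ) (𝓞 L) σ) := by
  apply hom_ext n L
  simp only [RingHom.coe_comp, Function.comp_apply, MulSemiringAction.toRingHom_apply]
  rw [smul_zz, map_pow, hf, prim_pow_iff (prim_image' n L hn hn' ψ) (NeZero.pos n')]
  rw [← umap_val n hn, hσ, ZMod.coe_unitOfCoprime]

/-- the number of points over a finite field -/
theorem card_finite_points' [IsGalois ℚ L] (F : IntermediateField ℚ L) (k : Type*) [Field k]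
    [Finite k] [CharP k p] (hk : (Nat.card k).Coprime n') (σ : Gal(L/ℚ))
    (hσ : ZMod.unitsMap (dvd' n hn) (galEquivZMod n L σ) = ZMod.unitOfCoprime (Nat.card k) hk) :
    Finite (𝓞 F →+* k) ∧ (σ ∈ In n L hn ⊔ F.fixingSubgroup →
        Nat.card (𝓞 F →+* k) = (In n L hn ⊔ F.fixingSubgroup).index) ∧
      (σ ∉ In n L hn ⊔ F.fixingSubgroup → Nat.card (𝓞 F →+* k) = 0) := by
  classical
  let Ω := AlgebraicClosure k
  have : Fintype k := Fintype.ofFinite k
  obtain ⟨m, hpp, hm⟩ := FiniteField.card k p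
  have hq : Nat.card k = p ^ (m : ℕ) := by rw [Nat.card_eq_fintype_card, hm]
  have : CharP Ω p := charP_of_injective_algebraMap (algebraMap k Ω).injective p
  let f : Ω →+* Ω := iterateFrobenius Ω p m
  have hf : ∀ x, f x = x ^ Nat.card k := by
    intro x
    rw [hq]
    rfl
  have hfr : ∀ ψ : 𝓞 L →+* Ω, f.comp ψ = ψ.comp (MulSemiringAction.toRingHom Gal(L/ℚ) (𝓞 L) σ) :=
    fun ψ => frob_eq' n L hn hn' (Nat.card k) hk σ hσ f hf ψ
  have hext : ∀ φ : 𝓞 F →+* Ω, ∃ ψ : 𝓞 L →+* Ω, ψ.comp (algebraMap (𝓞 F) (𝓞 L)) = φ := fun φ =>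
    exists_extend (A := 𝓞 F) (B := 𝓞 L) (FaithfulSMul.algebraMap_injective (𝓞 F) (𝓞 L)) φ
  have hinj : Function.Injective (fun φ : 𝓞 F →+* k => (algebraMap k Ω).comp φ) := by
    intro a b hab
    ext x
    have := DFunLike.congr_fun hab x
    exact (algebraMap k Ω).injective this
  have hcard := card_points' n L hn hn' F (Ω := Ω)
  refine ⟨?_, ?_, ?_⟩
  · have : Finite (𝓞 F →+* Ω) := Nat.finite_of_card_ne_zero (by
      rw [hcard]
      exact Subgroup.index_ne_zero_of_finite)
    exact Finite.of_injective _ hinj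
  · intro hmem
    have hsurj : Function.Surjective (fun φ : 𝓞 F →+* k => (algebraMap k Ω).comp φ) := by
      intro φ
      obtain ⟨ψ, rfl⟩ := hext φ
      have h1 : ∀ x : 𝓞 F, ψ (algebraMap (𝓞 F) (𝓞 L) x) ∈ (algebraMap k Ω).fieldRange := by
        intro x
        have h2 := DFunLike.congr_fun (hfr ψ) (algebraMap (𝓞 F) (𝓞 L) x)
        have h5 : res L F ψ 1 = res L F ψ σ := by
          rw [res_eq_iff' n L hn hn' F]
          simpa using hmem
        have h6 := DFunLike.congr_fun h5 x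
        simp only [res, RingHom.coe_comp, Function.comp_apply, MulSemiringAction.toRingHom_apply,
          one_smul] at h6
        simp only [RingHom.coe_comp, Function.comp_apply, MulSemiringAction.toRingHom_apply] at h2
        rw [← h6, hf] at h2
        exact (mem_range_iff _).mp h2
      let e : k ≃+* (algebraMap k Ω).fieldRange :=
        RingEquiv.ofBijective _ (RingHom.rangeRestrictField_bijective (algebraMap k Ω))
      let φ1 : 𝓞 F →+* (algebraMap k Ω).fieldRange :=
        RingHom.codRestrict (ψ.comp (algebraMap (𝓞 F) (𝓞 L))) _ h1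
      refine ⟨(e.symm : (algebraMap k Ω).fieldRange →+* k).comp φ1, ?_⟩
      ext x
      simp only [RingHom.coe_comp, Function.comp_apply, RingHom.coe_coe]
      have h3 : ((e (e.symm (φ1 x)) : (algebraMap k Ω).fieldRange) : Ω) =
        algebraMap k Ω (e.symm (φ1 x)) := rfl
      rw [← h3, e.apply_symm_apply]
      rfl
    rw [← hcard]
    exact Nat.card_congr (Equiv.ofBijective _ ⟨hinj, hsurj⟩)
  · intro hmem
    by_contra hne
    have : Nonempty (𝓞 F →+* k) := (Nat.card_pos_iff.mp (Nat.pos_of_ne_zero hne)).1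
    obtain ⟨φ⟩ := this
    obtain ⟨ψ, hψ⟩ := hext ((algebraMap k Ω).comp φ)
    apply hmem
    have h1 : res L F ψ 1 = res L F ψ σ := by
      ext x
      have h2 := DFunLike.congr_fun (hfr ψ) (algebraMap (𝓞 F) (𝓞 L) x)
      have h3 := DFunLike.congr_fun hψ x
      simp only [RingHom.coe_comp, Function.comp_apply, MulSemiringAction.toRingHom_apply] at h2 h3
      simp only [res, RingHom.coe_comp, Function.comp_apply, MulSemiringAction.toRingHom_apply,
        one_smul]
      rw [← h2, hf, h3, ← map_pow, Nat.card_eq_fintype_card, FiniteField.pow_card]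
    have h4 := (res_eq_iff' n L hn hn' F ψ _ _).mp h1
    simpa using h4

/-- the characters of the maximal subfield unramified at `p` -/
lemma mem_YY_fixed [IsGalois ℚ L] (F : IntermediateField ℚ L) (χ : DirichletCharacter ℂ n) :
    χ ∈ YY n L (IntermediateField.fixedField (In n L hn ⊔ F.fixingSubgroup)) ↔
      χ ∈ YY n L F ∧ ¬ p ∣ χ.conductor := by
  rw [mem_YY, IntermediateField.fixingSubgroup_fixedField, mem_YY]
  have h0 : ¬ p ∣ χ.conductor ↔ χ.conductor ∣ n' := by
    constructor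
    · intro h
      have h1 : χ.conductor ∣ p ^ a * n' := hn ▸ χ.conductor_dvd_level
      exact (Nat.Coprime.pow_right a ((Nat.Prime.coprime_iff_not_dvd hp.out).2 h).symm).dvd_of_dvd_mul_left h1
    · intro h h1
      exact hn' (h1.trans h)
  have h1 : χ.conductor ∣ n' ↔ ∀ σ ∈ In n L hn, χ (galEquivZMod n L σ) = 1 := by
    rw [← χ.mem_conductorSet_iff_conductor_dvd (dvd' n hn), χ.mem_conductorSet_iff,
      DirichletCharacter.factorsThrough_iff_ker_unitsMap (dvd' n hn)]
    constructor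
    · intro h σ hσ
      have h2 := h ((mem_In n L hn σ).1 hσ)
      rw [MonoidHom.mem_ker, Units.ext_iff] at h2
      simpa using h2
    · intro h u hu
      have h2 := h ((galEquivZMod n L).symm u) (by
        rw [mem_In, MulEquiv.apply_symm_apply]; exact hu)
      rw [MulEquiv.apply_symm_apply] at h2
      rw [MonoidHom.mem_ker, Units.ext_iff]
      simpa using h2
  rw [h0, h1]
  constructor
  · intro h
    exact ⟨fun σ hσ => h σ (Subgroup.mem_sup_right hσ), fun σ hσ => h σ (Subgroup.mem_sup_left hσ)⟩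
  · rintro ⟨h2, h3⟩ σ hσ
    obtain ⟨i, hi, τ, hτ, rfl⟩ := Subgroup.mem_sup_of_normal_left.1 hσ
    rw [map_mul, Units.val_mul, map_mul, h3 i hi, h2 τ hτ, one_mul]

end pts

open Classical in
theorem s_points : S_POINTS := by
  intro n _ L _ _ _ F k _ _
  have : IsGalois ℚ L := IsCyclotomicExtension.isGalois {n} ℚ L
  have : Fintype k := Fintype.ofFinite k
  obtain ⟨p, hpk⟩ := CharP.exists k
  obtain ⟨r, hpp, hr⟩ := FiniteField.card k p
  have hq : Nat.card k = p ^ (r : ℕ) := by rw [Nat.card_eq_fintype_card, hr]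
  have : Fact p.Prime := ⟨hpp⟩
  obtain ⟨a, n', hn', hn⟩ := Nat.exists_eq_pow_mul_and_not_dvd (NeZero.ne n) p hpp.ne_one
  have : NeZero n' := ⟨by rintro rfl; exact hn' (dvd_zero _)⟩
  have hk : (Nat.card k).Coprime n' := by
    rw [hq]
    exact Nat.Coprime.pow_left _ ((Nat.Prime.coprime_iff_not_dvd hpp).2 hn')
  obtain ⟨w, hw⟩ := ZMod.unitsMap_surjective (dvd' n hn) (ZMod.unitOfCoprime (Nat.card k) hk)
  set σ : Gal(L/ℚ) := (galEquivZMod n L).symm w with hσ
  have hσw : galEquivZMod n L σ = w := by rw [hσ, MulEquiv.apply_symm_apply]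
  obtain ⟨h1, h2, h3⟩ := card_finite_points' n L hn hn' F k hk σ (by rw [hσw]; exact hw)
  refine ⟨h1, ?_⟩
  set F' := IntermediateField.fixedField (In n L hn ⊔ F.fixingSubgroup) with hF'
  have hF'F : F'.fixingSubgroup = In n L hn ⊔ F.fixingSubgroup :=
    IntermediateField.fixingSubgroup_fixedField _
  have key : ∀ χ : DirichletCharacter ℂ n, χ ∈ YY n L F →
      χ.primitiveCharacter (Nat.card k : ZMod _) =
        if χ ∈ YY n L F' then χ (galEquivZMod n L σ) else 0 := by
    intro χ hχ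
    by_cases hc : p ∣ χ.conductor
    · rw [if_neg (fun h => ((mem_YY_fixed n L hn hn' F χ).1 h).2 hc)]
      apply MulChar.map_nonunit
      rw [ZMod.isUnit_iff_coprime, hq]
      intro h
      have h4 := Nat.Coprime.coprime_dvd_left (dvd_pow_self p r.pos.ne') h
      exact hpp.one_lt.ne' (Nat.eq_one_of_dvd_coprimes h4 dvd_rfl hc)
    · rw [if_pos ((mem_YY_fixed n L hn hn' F χ).2 ⟨hχ, hc⟩)]
      have hcn : χ.conductor ∣ n' := by
        have h1 : χ.conductor ∣ p ^ a * n' := hn ▸ χ.conductor_dvd_level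
        exact (Nat.Coprime.pow_right a ((Nat.Prime.coprime_iff_not_dvd hpp).2 hc).symm).dvd_of_dvd_mul_left h1
      have e1 : χ (galEquivZMod n L σ) =
          χ.primitiveCharacter (((galEquivZMod n L σ : (ZMod n)ˣ) : ZMod n).cast : ZMod χ.conductor) := by
        conv_lhs => rw [← χ.changeLevel_primitiveCharacter]
        rw [DirichletCharacter.changeLevel_eq_cast_of_dvd]
      rw [e1, hσw]
      congr 1
      have h5 := congrArg (fun u : (ZMod n')ˣ => ((u : ZMod n').cast : ZMod χ.conductor)) hw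
      simp only [ZMod.unitsMap_val, ZMod.coe_unitOfCoprime] at h5
      rw [ZMod.cast_natCast hcn] at h5
      rw [← h5]
      rw [← ZMod.natCast_val (R := ZMod n'), ZMod.cast_natCast hcn, ZMod.natCast_val]
  have e2 : ∑ᶠ χ : YY n L F, (χ : DirichletCharacter ℂ n).primitiveCharacter (Nat.card k : ZMod _) =
      ∑ χ : YY n L F', (χ : DirichletCharacter ℂ n) (galEquivZMod n L σ) := by
    rw [finsum_eq_sum_of_fintype]
    have hsub : YY n L F' ≤ YY n L F := fun χ hχ => ((mem_YY_fixed n L hn hn' F χ).1 hχ).1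
    rw [Finset.sum_congr rfl (fun χ _ => key χ.1 χ.2)]
    rw [← Finset.sum_filter]
    refine (Finset.sum_bij' (fun (χ : YY n L F') _ => (⟨χ.1, hsub χ.2⟩ : YY n L F))
      (fun (χ : YY n L F) (hχ : χ ∈ Finset.univ.filter (fun χ : YY n L F => χ.1 ∈ YY n L F')) =>
        (⟨χ.1, (Finset.mem_filter.1 hχ).2⟩ : YY n L F')) ?_ ?_ ?_ ?_ ?_).symm
    · intro χ _
      exact Finset.mem_filter.2 ⟨Finset.mem_univ _, χ.2⟩
    · intro χ _
      exact Finset.mem_univ _
    · intro χ _
      rfl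
    · intro χ _
      rfl
    · intro χ _
      rfl
  rw [e2]
  by_cases hmem : σ ∈ F'.fixingSubgroup
  · rw [h2 (hF'F ▸ hmem), ← hF'F, ← card_YY n L F']
    have h4 : ∀ χ : YY n L F', (χ : DirichletCharacter ℂ n) (galEquivZMod n L σ) = 1 := by
      intro χ
      exact (mem_YY n L F' χ.1).mp χ.2 σ hmem
    rw [Finset.sum_congr rfl (fun χ _ => h4 χ), Finset.sum_const, Finset.card_univ, nsmul_eq_mul,
      mul_one, Nat.card_eq_fintype_card]
  · rw [h3 (hF'F ▸ hmem)]
    rw [mem_fixing_iff n L F' σ] at hmem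
    push Not at hmem
    obtain ⟨χ₀, hχ₀, hne⟩ := hmem
    have h5 : χ₀ (galEquivZMod n L σ) * ∑ χ : YY n L F', (χ : DirichletCharacter ℂ n) (galEquivZMod n L σ)
        = ∑ χ : YY n L F', (χ : DirichletCharacter ℂ n) (galEquivZMod n L σ) := by
      rw [Finset.mul_sum]
      refine Fintype.sum_equiv (Equiv.mulLeft (⟨χ₀, hχ₀⟩ : YY n L F')) _ _ ?_
      intro χ
      simp [MulChar.mul_apply]
    have h6 : (χ₀ (galEquivZMod n L σ) - 1) *
        ∑ χ : YY n L F', (χ : DirichletCharacter ℂ n) (galEquivZMod n L σ) = 0 := by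
      rw [sub_mul, h5, one_mul, sub_self]
    rcases mul_eq_zero.mp h6 with h7 | h7
    · exact absurd (sub_eq_zero.mp h7) hne
    · rw [h7, Nat.cast_zero]

end Pool.Agent.Y125.XT
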